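import Mathlib

/-!
# Two legs in a half disc

`D ζ κ` has no zeros for `|ζ| < 1`, `κ` real in `(0, 1/2 + τ)` (first leg) and for `ζ` real in `[0, 1)`, `κ` in a cone about the real axis (second leg).
Then `D (-s²) (s / (1 + s²)) ≠ 0` for `s` in a sector. Homotopy with the maximum principle on `{|w| < ρ, 0 < Re w}`, `ζ = -w²`, `κ = a - i t b (ρ - w) / (ρ + w)`.
-/

set_option autoImplicit false

open Set

namespace Pool.Agent.Helper14.GD

/-- zeros do not enter through the boundary -/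
theorem homotopy {U : Set ℂ} (hb : Bornology.IsBounded U) {f : ℝ → ℂ → ℂ}
    (hc : ContinuousOn (fun p : ℝ × ℂ => f p.1 p.2) (Icc (0 : ℝ) 1 ×ˢ closure U))
    (hd : ∀ t ∈ Icc (0 : ℝ) 1, DifferentiableOn ℂ (f t) U) (h0 : ∀ z ∈ closure U, f 0 z ≠ 0)
    (hfr : ∀ t ∈ Icc (0 : ℝ) 1, ∀ z ∈ frontier U, f t z ≠ 0) {t : ℝ} (ht : t ∈ Icc (0 : ℝ) 1) {z : ℂ} (hz : z ∈ closure U) :
    f t z ≠ 0 := by
  have hK : IsCompact (closure U) := hb.isCompact_closure
  have hFK : IsCompact (frontier U) := hK.of_isClosed_subset isClosed_frontier frontier_subset_closure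
  rcases (frontier U).eq_empty_or_nonempty with he | hne
  · -- no frontier: `U` is empty
    exfalso
    have h1 : IsClopen U := isClopen_iff_frontier_eq_empty.2 he
    rcases isClopen_iff.1 h1 with h2 | h2
    · rw [h2, closure_empty] at hz
      exact hz
    · rw [h2] at hb
      exact NormedSpace.unbounded_univ ℝ ℂ hb
  -- the minimum on the frontier
  have hcf : ContinuousOn (fun p : ℝ × ℂ => ‖f p.1 p.2‖) (Icc (0 : ℝ) 1 ×ˢ frontier U) :=
    (hc.mono (prod_mono_right frontier_subset_closure)).norm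
  obtain ⟨p, hp, hpm⟩ := (isCompact_Icc.prod hFK).exists_isMinOn ((nonempty_Icc.2 zero_le_one).prod hne) hcf
  obtain ⟨m, hm⟩ : ∃ m, m = ‖f p.1 p.2‖ := ⟨_, rfl⟩
  have hm0 : 0 < m := by
    rw [hm, norm_pos_iff]
    exact hfr p.1 hp.1 p.2 hp.2
  have hmf : ∀ t ∈ Icc (0 : ℝ) 1, ∀ z ∈ frontier U, m ≤ ‖f t z‖ := by
    intro t ht z hz
    rw [hm]
    exact hpm (a := (t, z)) ⟨ht, hz⟩
  have hct : ∀ t ∈ Icc (0 : ℝ) 1, ContinuousOn (f t) (closure U) := by
    intro t ht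
    exact hc.comp (Continuous.prodMk_right t).continuousOn fun z hz => ⟨ht, hz⟩
  -- nonzero gives the lower bound `m`
  have hlow : ∀ t ∈ Icc (0 : ℝ) 1, (∀ z ∈ closure U, f t z ≠ 0) → ∀ z ∈ closure U, m ≤ ‖f t z‖ := by
    intro t ht hne z hz
    have h5 : ‖(f t z)⁻¹‖ ≤ m⁻¹ := by
      refine Complex.norm_le_of_forall_mem_frontier_norm_le (f := fun y => (f t y)⁻¹) hb ⟨?_, ?_⟩ ?_ hz
      · exact (hd t ht).inv fun y hy => hne y (subset_closure hy)
      · exact (hct t ht).inv₀ fun y hy => hne y hy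
      · intro y hy
        rw [norm_inv]
        exact inv_anti₀ hm0 (hmf t ht y hy)
    rw [norm_inv] at h5
    exact (inv_le_inv₀ (norm_pos_iff.2 (hne z hz)) hm0).1 h5
  -- the set of good parameters
  have hgood : ∀ t ∈ Icc (0 : ℝ) 1, ∀ z ∈ closure U, m ≤ ‖f t z‖ := by
    have huc : UniformContinuousOn (fun p : ℝ × ℂ => f p.1 p.2) (Icc (0 : ℝ) 1 ×ˢ closure U) :=
      (isCompact_Icc.prod hK).uniformContinuousOn_of_continuous hc
    obtain ⟨δ, hδ, hδ2⟩ := Metric.uniformContinuousOn_iff.1 huc m hm0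
    -- steps of length smaller than `δ`
    have step : ∀ t ∈ Icc (0 : ℝ) 1, (∀ z ∈ closure U, m ≤ ‖f t z‖) → ∀ t' ∈ Icc (0 : ℝ) 1, |t' - t| < δ →
        ∀ z ∈ closure U, m ≤ ‖f t' z‖ := by
      intro t ht h1 t' ht' h2
      apply hlow t' ht'
      intro z hz h3
      have h4 := hδ2 (t', z) ⟨ht', hz⟩ (t, z) ⟨ht, hz⟩ (by
        rw [Prod.dist_eq, dist_self]
        simp only [Real.dist_eq]
        exact max_lt h2 hδ)
      rw [dist_eq_norm] at h4
      simp only [h3, zero_sub, norm_neg] at h4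
      have := h1 z hz
      linarith
    obtain ⟨N, hN⟩ := exists_nat_gt (1 / δ)
    have hN0 : (0 : ℝ) < N := lt_trans (by positivity) hN
    intro t ht
    have hk : ∀ k : ℕ, ∀ z ∈ closure U, m ≤ ‖f (t * (min (k : ℝ) N / N)) z‖ := by
      intro k
      induction k with
      | zero =>
        have e : t * (min ((0 : ℕ) : ℝ) N / N) = 0 := by
          rw [Nat.cast_zero, min_eq_left hN0.le]
          simp
        rw [e]
        exact hlow 0 ⟨le_refl _, zero_le_one⟩ h0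
      | succ k ih =>
        have hmem : ∀ j : ℕ, t * (min (j : ℝ) N / N) ∈ Icc (0 : ℝ) 1 := by
          intro j
          have h1 : 0 ≤ min (j : ℝ) N / N := by positivity
          have h2 : min (j : ℝ) N / N ≤ 1 := by
            rw [div_le_one hN0]
            exact min_le_right _ _
          exact ⟨mul_nonneg ht.1 h1, mul_le_one₀ ht.2 h1 h2⟩
        refine step _ (hmem k) ih _ (hmem (k + 1)) ?_
        have h1 : |min ((k + 1 : ℕ) : ℝ) N - min (k : ℝ) N| ≤ 1 := by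
          have h2 := abs_min_sub_min_le_max ((k + 1 : ℕ) : ℝ) N k N
          refine h2.trans ?_
          simp
        have h3 : t * (min ((k + 1 : ℕ) : ℝ) N / N) - t * (min (k : ℝ) N / N) =
            t * ((min ((k + 1 : ℕ) : ℝ) N - min (k : ℝ) N) * (1 / N)) := by
          ring
        rw [h3, abs_mul, abs_mul, abs_of_nonneg ht.1, abs_of_pos (by positivity : (0 : ℝ) < 1 / N)]
        have h4 : (1 : ℝ) / N < δ := by
          rw [div_lt_iff₀ hN0]
          rw [div_lt_iff₀ hδ] at hN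
          linarith
        calc t * (|min ((k + 1 : ℕ) : ℝ) N - min (k : ℝ) N| * (1 / N)) ≤ 1 * (1 * (1 / N)) := by
              gcongr
              exact ht.2
          _ = 1 / N := by ring
          _ < δ := h4
    intro z hz
    have h1 := hk N z hz
    have e : t * (min (N : ℝ) N / N) = t := by
      rw [min_self, div_self hN0.ne', mul_one]
    rwa [e] at h1
  have h1 := hgood t ht z hz
  intro h2
  rw [h2, norm_zero] at h1
  linarith

theorem quo_re (ρ : ℝ) (w : ℂ) : (((ρ : ℂ) - w) / ((ρ : ℂ) + w)).re = (ρ ^ 2 - Complex.normSq w) / Complex.normSq ((ρ : ℂ) + w) := by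
  rw [Complex.div_re, Complex.normSq_apply w]
  simp only [Complex.add_re, Complex.add_im, Complex.sub_re, Complex.sub_im, Complex.ofReal_re, Complex.ofReal_im]
  ring

theorem quo_im (ρ : ℝ) (w : ℂ) : (((ρ : ℂ) - w) / ((ρ : ℂ) + w)).im = -(2 * ρ * w.im) / Complex.normSq ((ρ : ℂ) + w) := by
  rw [Complex.div_im]
  simp only [Complex.add_re, Complex.add_im, Complex.sub_re, Complex.sub_im, Complex.ofReal_re, Complex.ofReal_im]
  ring

theorem quo_norm {ρ : ℝ} (hρ : 0 < ρ) {w : ℂ} (hw : 0 ≤ w.re) : ‖((ρ : ℂ) - w) / ((ρ : ℂ) + w)‖ ≤ 1 := by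
  rw [norm_div]
  apply div_le_one_of_le₀ _ (norm_nonneg _)
  rw [← sq_le_sq₀ (norm_nonneg _) (norm_nonneg _), ← Complex.normSq_eq_norm_sq, ← Complex.normSq_eq_norm_sq,
    Complex.normSq_apply, Complex.normSq_apply]
  simp only [Complex.sub_re, Complex.sub_im, Complex.add_re, Complex.add_im, Complex.ofReal_re, Complex.ofReal_im]
  nlinarith [mul_nonneg hρ.le hw]

theorem add_ne {ρ : ℝ} (hρ : 0 < ρ) {w : ℂ} (hw : 0 ≤ w.re) : (ρ : ℂ) + w ≠ 0 := by
  intro h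
  have h1 := congrArg Complex.re h
  simp only [Complex.add_re, Complex.ofReal_re, Complex.zero_re] at h1
  linarith

set_option maxHeartbeats 1000000 in
/-- the inequalities for `ρ = 1` -/
theorem ineq {u v ε τ c : ℝ} (hε0 : 0 < ε) (hε1 : ε ≤ 1) (hτ0 : 0 < τ) (hτ1 : τ ≤ 1 / 2) (hc1 : c ≤ ε / 8) (hc2 : c ≤ τ / 2)
    (hu : 0 < u) (hr : u ^ 2 + v ^ 2 < 1) (hc0 : 0 ≤ c) (hv : |v| ≤ c * Real.sqrt (u ^ 2 + v ^ 2)) {N a b : ℝ}
    (hN : N = (1 + (u ^ 2 + v ^ 2)) ^ 2 - 4 * v ^ 2) (ha : a = (u * (1 + (u ^ 2 + v ^ 2)) - 2 * v ^ 2) / N)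
    (hb : b = -(v * ((1 + u) ^ 2 + v ^ 2)) / N) : 0 < N ∧ |b| < ε * (a - |b|) ∧ a + |b| < 1 / 2 + τ := by
  obtain ⟨r, hrd⟩ : ∃ r, r = Real.sqrt (u ^ 2 + v ^ 2) := ⟨_, rfl⟩
  have hr2 : u ^ 2 + v ^ 2 = r ^ 2 := by rw [hrd, Real.sq_sqrt (by positivity)]
  have hr0 : 0 < r := by rw [hrd]; exact Real.sqrt_pos.2 (by positivity)
  rw [← hrd] at hv
  rw [hr2] at hN ha hr
  have hr1 : r < 1 := by nlinarith
  have hur : u ≤ r := by nlinarith [sq_nonneg v]
  have hc8 : c ≤ 1 / 8 := by linarith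
  have hv2 : v ^ 2 ≤ c ^ 2 * r ^ 2 := by
    have h1 := pow_le_pow_left₀ (abs_nonneg v) hv 2
    rwa [sq_abs, mul_pow] at h1
  have hul : r * (1 - c ^ 2) ≤ u := by
    have h1 : (r * (1 - c ^ 2)) ^ 2 ≤ u ^ 2 := by
      have h2 : u ^ 2 = r ^ 2 - v ^ 2 := by linarith
      have h3 : (r * (1 - c ^ 2)) ^ 2 = r ^ 2 * (1 - c ^ 2) - r ^ 2 * (1 - c ^ 2) * c ^ 2 := by ring
      have h4 : 0 ≤ r ^ 2 * (1 - c ^ 2) * c ^ 2 := by
        have : 0 ≤ 1 - c ^ 2 := by nlinarith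
        positivity
      nlinarith
    exact (abs_le_of_sq_le_sq' h1 hu.le).2
  obtain ⟨R, hR⟩ : ∃ R, R = r * (1 + r ^ 2) := ⟨_, rfl⟩
  have hR0 : 0 < R := by rw [hR]; positivity
  have h2r : 2 * r ≤ 1 + r ^ 2 := by nlinarith [sq_nonneg (1 - r)]
  have hN1 : (1 + r ^ 2) ^ 2 * (1 - c ^ 2) ≤ N := by
    rw [hN]
    have h1 : 4 * r ^ 2 ≤ (1 + r ^ 2) ^ 2 := by nlinarith
    have h2 : 4 * r ^ 2 * c ^ 2 ≤ (1 + r ^ 2) ^ 2 * c ^ 2 := mul_le_mul_of_nonneg_right h1 (sq_nonneg c)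
    nlinarith
  have hcc : 0 < 1 - c ^ 2 := by nlinarith
  have hN0 : 0 < N := lt_of_lt_of_le (by positivity) hN1
  -- numerators
  have hB : |v * ((1 + u) ^ 2 + v ^ 2)| ≤ 2 * c * R := by
    rw [abs_mul, abs_of_nonneg (by positivity : 0 ≤ (1 + u) ^ 2 + v ^ 2)]
    have h1 : (1 + u) ^ 2 + v ^ 2 ≤ 2 * (1 + r ^ 2) := by nlinarith
    calc |v| * ((1 + u) ^ 2 + v ^ 2) ≤ (c * r) * (2 * (1 + r ^ 2)) := by gcongr
      _ = 2 * c * R := by rw [hR]; ring
  have hA1 : R * (1 - 2 * c ^ 2) ≤ u * (1 + r ^ 2) - 2 * v ^ 2 := by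
    have h1 : r * (1 - c ^ 2) * (1 + r ^ 2) ≤ u * (1 + r ^ 2) := mul_le_mul_of_nonneg_right hul (by positivity)
    have h2 : 2 * v ^ 2 ≤ c ^ 2 * R := by
      have h3 : c ^ 2 * r * (2 * r) ≤ c ^ 2 * r * (1 + r ^ 2) := mul_le_mul_of_nonneg_left h2r (by positivity)
      rw [hR]
      nlinarith
    have e1 : r * (1 - c ^ 2) * (1 + r ^ 2) = R * (1 - c ^ 2) := by
      rw [hR]
      ring
    have e2 : R * (1 - 2 * c ^ 2) = R * (1 - c ^ 2) - c ^ 2 * R := by ring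
    rw [e1] at h1
    linarith
  have hA2 : u * (1 + r ^ 2) - 2 * v ^ 2 ≤ R := by
    have h1 : u * (1 + r ^ 2) ≤ r * (1 + r ^ 2) := mul_le_mul_of_nonneg_right hur (by positivity)
    rw [hR]
    nlinarith [sq_nonneg v]
  obtain ⟨Y, hY⟩ : ∃ Y, Y = v * ((1 + u) ^ 2 + v ^ 2) := ⟨_, rfl⟩
  obtain ⟨X, hX⟩ : ∃ X, X = u * (1 + r ^ 2) - 2 * v ^ 2 := ⟨_, rfl⟩
  have hba : |b| = |Y| / N := by rw [hb, ← hY, abs_div, abs_neg, abs_of_pos hN0]
  rw [← hY] at hB
  rw [← hX] at hA1 hA2 ha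
  refine ⟨hN0, ?_, ?_⟩
  · rw [hba, ha, ← sub_div, ← mul_div_assoc]
    apply div_lt_div_of_pos_right _ hN0
    have h1 : (1 + ε) * |Y| ≤ 2 * (2 * (ε / 8) * R) := by
      have h2 : |Y| ≤ 2 * (ε / 8) * R := hB.trans (by gcongr)
      have h3 := abs_nonneg Y
      nlinarith
    have h4 : ε * (R * (1 - 2 * c ^ 2)) ≤ ε * X := mul_le_mul_of_nonneg_left hA1 hε0.le
    have h5 : 31 / 32 * (ε * R) ≤ ε * (R * (1 - 2 * c ^ 2)) := by
      have h6 : 31 / 32 ≤ 1 - 2 * c ^ 2 := by nlinarith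
      have h7 : 0 < ε * R := by positivity
      nlinarith
    have h7 : 0 < ε * R := by positivity
    nlinarith
  · rw [hba, ha, ← add_div, div_lt_iff₀ hN0]
    have h1 : X + |Y| ≤ R * (1 + 2 * c) := by nlinarith
    have h2 : R ≤ (1 + r ^ 2) ^ 2 / 2 := by
      rw [hR]
      nlinarith
    have h3 : R * (1 + 2 * c) ≤ (1 + r ^ 2) ^ 2 / 2 * (1 + 2 * c) := mul_le_mul_of_nonneg_right h2 (by linarith)
    have h4 : (1 / 2 + τ) * ((1 + r ^ 2) ^ 2 * (1 - c ^ 2)) ≤ (1 / 2 + τ) * N := mul_le_mul_of_nonneg_left hN1 (by linarith)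
    have h5 : 1 + 2 * c < (1 + 2 * τ) * (1 - c ^ 2) := by nlinarith
    have h6 : 0 < (1 + r ^ 2) ^ 2 := by positivity
    nlinarith

set_option maxHeartbeats 4000000 in
theorem half {D : ℂ → ℂ → ℂ} (hc : Continuous fun p : ℂ × ℂ => D p.1 p.2)
    (hd : ∀ (Z K : ℂ → ℂ) (x : ℂ), DifferentiableAt ℂ Z x → DifferentiableAt ℂ K x → DifferentiableAt ℂ (fun x => D (Z x) (K x)) x)
    {ε τ : ℝ} (hε0 : 0 < ε) (hε1 : ε ≤ 1) (hτ0 : 0 < τ) (hτ1 : τ ≤ 1 / 2)
    (leg1 : ∀ ζ : ℂ, ‖ζ‖ < 1 → ∀ κ : ℝ, 0 < κ → κ < 1 / 2 + τ → D ζ κ ≠ 0)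
    (leg2 : ∀ t : ℝ, 0 ≤ t → t < 1 → ∀ κ : ℂ, 0 < κ.re → κ.re < 1 / 2 + τ → |κ.im| ≤ ε * κ.re → D t κ ≠ 0)
    {s : ℂ} (h1 : ‖s‖ < 1) (hre : 0 < s.re) (hs : |s.im| ≤ min (ε / 8) (τ / 2) * ‖s‖) :
    D (-s ^ 2) (s / (1 + s ^ 2)) ≠ 0 := by
  have hI := Complex.I_mul_I
  obtain ⟨κ, hκ⟩ : ∃ κ, κ = s / (1 + s ^ 2) := ⟨_, rfl⟩
  obtain ⟨x, hx⟩ : ∃ x : ℝ → ℂ, x = fun ρ : ℝ => ((ρ : ℂ) - s) / ((ρ : ℂ) + s) := ⟨_, rfl⟩
  obtain ⟨b, hb⟩ : ∃ b : ℝ → ℝ, b = fun ρ => -κ.im / (x ρ).re := ⟨_, rfl⟩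
  obtain ⟨a, ha⟩ : ∃ a : ℝ → ℝ, a = fun ρ => κ.re - b ρ * (x ρ).im := ⟨_, rfl⟩
  have hns : Complex.normSq s = s.re ^ 2 + s.im ^ 2 := by
    rw [Complex.normSq_apply]
    ring
  have hn2 : s.re ^ 2 + s.im ^ 2 < 1 := by
    rw [← hns, Complex.normSq_eq_norm_sq]
    nlinarith [norm_nonneg s]
  have hnr : ‖s‖ = Real.sqrt (s.re ^ 2 + s.im ^ 2) := by
    rw [← hns, Complex.normSq_eq_norm_sq, Real.sqrt_sq (norm_nonneg _)]
  -- the values at `ρ = 1`
  obtain ⟨N, hN⟩ : ∃ N, N = (1 + (s.re ^ 2 + s.im ^ 2)) ^ 2 - 4 * s.im ^ 2 := ⟨_, rfl⟩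
  obtain ⟨P, hP⟩ : ∃ P, P = (1 + s.re) ^ 2 + s.im ^ 2 := ⟨_, rfl⟩
  have hP0 : 0 < P := by rw [hP]; positivity
  rw [hnr] at hs
  have hm0 : 0 ≤ min (ε / 8) (τ / 2) := le_min (by positivity) (by positivity)
  have key := ineq hε0 hε1 hτ0 hτ1 (min_le_left _ _) (min_le_right _ _) hre hn2 hm0 hs hN rfl rfl
  obtain ⟨hN0, key1, key2⟩ := key
  have hsq : Complex.normSq (1 + s ^ 2) = N := by
    rw [hN, Complex.normSq_apply]
    simp only [Complex.add_re, Complex.add_im, Complex.one_re, Complex.one_im, sq s, Complex.mul_re, Complex.mul_im]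
    ring
  have hκre : κ.re = s.re * (1 + (s.re ^ 2 + s.im ^ 2)) / N := by
    rw [hκ, Complex.div_re, hsq]
    simp only [Complex.add_re, Complex.add_im, Complex.one_re, Complex.one_im, sq s, Complex.mul_re, Complex.mul_im]
    ring
  have hκim : κ.im = s.im * (1 - (s.re ^ 2 + s.im ^ 2)) / N := by
    rw [hκ, Complex.div_im, hsq]
    simp only [Complex.add_re, Complex.add_im, Complex.one_re, Complex.one_im, sq s, Complex.mul_re, Complex.mul_im]
    ring
  have hPn : Complex.normSq (((1 : ℝ) : ℂ) + s) = P := by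
    rw [hP, Complex.normSq_apply]
    simp only [Complex.add_re, Complex.add_im, Complex.ofReal_re, Complex.ofReal_im]
    ring
  have hx1re : (x 1).re = (1 - (s.re ^ 2 + s.im ^ 2)) / P := by
    rw [hx]
    simp only
    rw [quo_re, hPn, hns]
    ring
  have hx1im : (x 1).im = -(2 * s.im) / P := by
    rw [hx]
    simp only
    rw [quo_im, hPn]
    ring
  have h1r : 0 < 1 - (s.re ^ 2 + s.im ^ 2) := by linarith
  have hb1 : b 1 = -(s.im * ((1 + s.re) ^ 2 + s.im ^ 2)) / N := by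
    rw [hb]
    simp only
    rw [hκim, hx1re, ← hP]
    field_simp
  have ha1 : a 1 = (s.re * (1 + (s.re ^ 2 + s.im ^ 2)) - 2 * s.im ^ 2) / N := by
    rw [ha]
    simp only
    rw [hb1, hκre, hx1im, ← hP]
    field_simp
  rw [← ha1, ← hb1] at key1 key2
  -- continuity at `ρ = 1`
  have hxc : ContinuousAt x 1 := by
    rw [hx]
    have h3 := add_ne one_pos hre.le
    have h4 : ContinuousAt (fun ρ : ℝ => (ρ : ℂ)) 1 := Complex.continuous_ofReal.continuousAt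
    exact (h4.sub continuousAt_const).div (h4.add continuousAt_const) h3
  have hx1 : (x 1).re ≠ 0 := by
    rw [hx1re]
    positivity
  have hbc : ContinuousAt b 1 := by
    rw [hb]
    exact continuousAt_const.div (Complex.continuous_re.continuousAt.comp hxc) hx1
  have hac : ContinuousAt a 1 := by
    rw [ha]
    exact continuousAt_const.sub (hbc.mul (Complex.continuous_im.continuousAt.comp hxc))
  have hev : ∀ᶠ ρ in nhds (1 : ℝ), |b ρ| < ε * (a ρ - |b ρ|) ∧ a ρ + |b ρ| < 1 / 2 + τ ∧ ‖s‖ < ρ := by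
    refine Filter.Eventually.and ?_ (Filter.Eventually.and ?_ (lt_mem_nhds h1))
    · exact (hbc.abs).eventually_lt (continuousAt_const.mul (hac.sub hbc.abs)) key1
    · exact (hac.add hbc.abs).eventually_lt continuousAt_const key2
  have hev2 : ∀ᶠ ρ in nhdsWithin (1 : ℝ) (Iio 1), (|b ρ| < ε * (a ρ - |b ρ|) ∧ a ρ + |b ρ| < 1 / 2 + τ ∧ ‖s‖ < ρ) ∧ ρ < 1 :=
    (hev.filter_mono nhdsWithin_le_nhds).and self_mem_nhdsWithin
  obtain ⟨ρ, ⟨hρ1, hρ2, hρ3⟩, hρ4⟩ := hev2.exists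
  have hρ0 : 0 < ρ := lt_of_le_of_lt (norm_nonneg _) hρ3
  obtain ⟨A, hA⟩ : ∃ A, A = a ρ := ⟨_, rfl⟩
  obtain ⟨B, hB⟩ : ∃ B, B = b ρ := ⟨_, rfl⟩
  rw [← hA, ← hB] at hρ1 hρ2
  have hAB : 0 < A - |B| := by
    have h2 := abs_nonneg B
    by_contra h3
    have h4 : ε * (A - |B|) ≤ 0 := mul_nonpos_of_nonneg_of_nonpos hε0.le (not_lt.1 h3)
    linarith
  have hxρ : 0 < (x ρ).re := by
    rw [hx]
    simp only
    rw [quo_re]
    have h2 : Complex.normSq s < ρ ^ 2 := by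
      rw [Complex.normSq_eq_norm_sq]
      nlinarith [norm_nonneg s]
    exact div_pos (by linarith) (Complex.normSq_pos.2 (add_ne hρ0 hre.le))
  have hval : (A : ℂ) - Complex.I * (1 : ℝ) * B * (((ρ : ℂ) - s) / ((ρ : ℂ) + s)) = κ := by
    have e1 : ((ρ : ℂ) - s) / ((ρ : ℂ) + s) = x ρ := by rw [hx]
    rw [e1]
    apply Complex.ext
    · simp only [Complex.sub_re, Complex.mul_re, Complex.mul_im, Complex.I_re, Complex.I_im, Complex.ofReal_re, Complex.ofReal_im]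
      have e2 : A = κ.re - B * (x ρ).im := by
        rw [hA, hB, ha]
      rw [e2]
      ring
    · simp only [Complex.sub_im, Complex.mul_re, Complex.mul_im, Complex.I_re, Complex.I_im, Complex.ofReal_re, Complex.ofReal_im]
      have e2 : B * (x ρ).re = -κ.im := by
        rw [hB, hb]
        field_simp
      linarith
  -- the domain
  obtain ⟨U, hU⟩ : ∃ U : Set ℂ, U = {w : ℂ | ‖w‖ < ρ ∧ 0 < w.re} := ⟨_, rfl⟩
  have hUo : IsOpen U := by
    rw [hU]
    exact (isOpen_lt continuous_norm continuous_const).inter (isOpen_lt continuous_const Complex.continuous_re)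
  have hUb : Bornology.IsBounded U := by
    refine Metric.isBounded_ball.subset (s := U) (t := Metric.ball (0 : ℂ) ρ) ?_
    intro w hw
    rw [hU] at hw
    rw [mem_ball_zero_iff]
    exact hw.1
  have hUcl : ∀ w ∈ closure U, ‖w‖ ≤ ρ ∧ 0 ≤ w.re := by
    have hcl : IsClosed {w : ℂ | ‖w‖ ≤ ρ ∧ 0 ≤ w.re} :=
      (isClosed_le continuous_norm continuous_const).inter (isClosed_le continuous_const Complex.continuous_re)
    intro w hw
    exact closure_minimal (fun w hw => by rw [hU] at hw; exact ⟨hw.1.le, hw.2.le⟩) hcl hw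
  have hUfr : ∀ w ∈ frontier U, ‖w‖ = ρ ∨ w.re = 0 := by
    intro w hw
    rw [hUo.frontier_eq] at hw
    obtain ⟨h2, h3⟩ := hUcl w hw.1
    by_contra h4
    push Not at h4
    apply hw.2
    rw [hU]
    exact ⟨lt_of_le_of_ne h2 h4.1, lt_of_le_of_ne h3 (Ne.symm h4.2)⟩
  have hsU : s ∈ U := by
    rw [hU]
    exact ⟨hρ3, hre⟩
  obtain ⟨f, hf⟩ : ∃ f : ℝ → ℂ → ℂ, f = fun (t : ℝ) (w : ℂ) => D (-w ^ 2) ((A : ℂ) - Complex.I * t * B * (((ρ : ℂ) - w) / ((ρ : ℂ) + w))) :=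
    ⟨_, rfl⟩
  have hKre : ∀ (t : ℝ) (w : ℂ), ((A : ℂ) - Complex.I * t * B * (((ρ : ℂ) - w) / ((ρ : ℂ) + w))).re =
      A + t * B * (((ρ : ℂ) - w) / ((ρ : ℂ) + w)).im := by
    intro t w
    simp only [Complex.sub_re, Complex.mul_re, Complex.mul_im, Complex.I_re, Complex.I_im, Complex.ofReal_re, Complex.ofReal_im]
    ring
  have hKim : ∀ (t : ℝ) (w : ℂ), ((A : ℂ) - Complex.I * t * B * (((ρ : ℂ) - w) / ((ρ : ℂ) + w))).im =
      -(t * B * (((ρ : ℂ) - w) / ((ρ : ℂ) + w)).re) := by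
    intro t w
    simp only [Complex.sub_im, Complex.mul_re, Complex.mul_im, Complex.I_re, Complex.I_im, Complex.ofReal_re, Complex.ofReal_im]
    ring
  have hbd : ∀ t ∈ Icc (0 : ℝ) 1, ∀ y : ℝ, |y| ≤ 1 → |t * B * y| ≤ |B| := by
    intro t ht y hy
    rw [abs_mul, abs_mul, abs_of_nonneg ht.1]
    calc t * |B| * |y| ≤ 1 * |B| * 1 := by
          gcongr
          exact ht.2
      _ = |B| := by ring
  have hz2 : ∀ w : ℂ, ‖w‖ ≤ ρ → ‖-w ^ 2‖ < 1 := by
    intro w hw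
    rw [norm_neg, norm_pow]
    have := norm_nonneg w
    nlinarith
  have h2 : ∀ t ∈ Icc (0 : ℝ) 1, ∀ z ∈ closure U, f t z ≠ 0 := by
    intro t ht z hz
    refine homotopy hUb ?_ ?_ ?_ ?_ ht hz
    · rw [hf]
      refine hc.comp_continuousOn (f := fun p : ℝ × ℂ => (-p.2 ^ 2, (A : ℂ) - Complex.I * p.1 * B * (((ρ : ℂ) - p.2) / ((ρ : ℂ) + p.2)))) ?_
      refine ContinuousOn.prodMk (by fun_prop) ?_
      refine continuousOn_const.sub (ContinuousOn.mul (by fun_prop) ?_)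
      refine ContinuousOn.div (by fun_prop) (by fun_prop) ?_
      intro p hp
      exact add_ne hρ0 (hUcl p.2 hp.2).2
    · intro t _ w hw
      rw [hf]
      have h3 : (ρ : ℂ) + w ≠ 0 := add_ne hρ0 (hUcl w (subset_closure hw)).2
      refine (hd (fun w => -w ^ 2) (fun w => (A : ℂ) - Complex.I * t * B * (((ρ : ℂ) - w) / ((ρ : ℂ) + w))) w (by fun_prop) ?_).differentiableWithinAt
      exact (differentiableAt_const _).sub (((differentiableAt_const _).sub differentiableAt_id).div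
        ((differentiableAt_const _).add differentiableAt_id) h3 |>.const_mul _)
    · intro w hw
      rw [hf]
      have e1 : (A : ℂ) - Complex.I * ((0 : ℝ) : ℂ) * B * (((ρ : ℂ) - w) / ((ρ : ℂ) + w)) = (A : ℂ) := by
        simp
      simp only
      rw [e1]
      have h3 := abs_nonneg B
      exact leg1 _ (hz2 w (hUcl w hw).1) A (by linarith) (by linarith)
    · intro t ht w hw
      rw [hf]
      have hw2 := hUcl w (frontier_subset_closure hw)
      have hq := quo_norm hρ0 hw2.2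
      have hq1 := (Complex.abs_re_le_norm (((ρ : ℂ) - w) / ((ρ : ℂ) + w))).trans hq
      have hq2 := (Complex.abs_im_le_norm (((ρ : ℂ) - w) / ((ρ : ℂ) + w))).trans hq
      have h3 := hbd t ht _ hq1
      have h4 := hbd t ht _ hq2
      have h5 := abs_le.1 h4
      rcases hUfr w hw with h6 | h6
      · have e1 : (A : ℂ) - Complex.I * t * B * (((ρ : ℂ) - w) / ((ρ : ℂ) + w)) =
            ((A + t * B * (((ρ : ℂ) - w) / ((ρ : ℂ) + w)).im : ℝ) : ℂ) := by
          apply Complex.ext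
          · rw [hKre, Complex.ofReal_re]
          · rw [hKim, Complex.ofReal_im, quo_re, Complex.normSq_eq_norm_sq, h6, sub_self, zero_div, mul_zero, neg_zero]
        simp only
        rw [e1]
        exact leg1 _ (hz2 w hw2.1) _ (by linarith) (by linarith)
      · have e1 : -w ^ 2 = ((w.im ^ 2 : ℝ) : ℂ) := by
          have e2 : w = (w.im : ℂ) * Complex.I := by
            apply Complex.ext
            · simp [h6]
            · simp
          rw [e2]
          push_cast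
          simp only [Complex.mul_im, Complex.ofReal_re, Complex.ofReal_im, Complex.I_re, Complex.I_im, mul_pow, Complex.I_sq]
          push_cast
          ring
        simp only
        rw [e1]
        have h7 : w.im ^ 2 < 1 := by
          have h8 := (Complex.abs_im_le_norm w).trans hw2.1
          have h9 := abs_nonneg w.im
          have h10 : |w.im| ^ 2 = w.im ^ 2 := sq_abs _
          nlinarith
        refine leg2 _ (sq_nonneg _) h7 _ ?_ ?_ ?_
        · rw [hKre]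
          linarith
        · rw [hKre]
          linarith
        · rw [hKre, hKim, abs_neg]
          have h8 : ε * (A - |B|) ≤ ε * (A + t * B * (((ρ : ℂ) - w) / ((ρ : ℂ) + w)).im) :=
            mul_le_mul_of_nonneg_left (by linarith) hε0.le
          linarith
  have h3 := h2 1 ⟨zero_le_one, le_refl _⟩ s (subset_closure hsU)
  rw [hf] at h3
  simp only at h3
  rw [hval, hκ] at h3
  exact h3

end Pool.Agent.Helper14.GD
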